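import Pool.Agent.Helper21.CU.St

set_option autoImplicit false

namespace Pool.Agent.Helper79.CU

open Pool.Agent.Helper21.CU Finset

lemma dvd_cube (a : ℕ) (k : ℤ) (v w : ℕ) (h : v ≡ w [MOD a]) (hw : (a : ℤ) ∣ (w : ℤ) ^ 3 - k) :
    (a : ℤ) ∣ (v : ℤ) ^ 3 - k := by
  have h1 : (a : ℤ) ∣ (v : ℤ) - w := by
    have := (Nat.modEq_iff_dvd.mp h)
    have h2 : (v : ℤ) - w = -((w : ℤ) - v) := by ring
    rw [h2]; exact (dvd_neg).mpr this
  have h2 : (v : ℤ) ^ 3 - k = ((v : ℤ) - w) * ((v : ℤ) ^ 2 + v * w + w ^ 2) + ((w : ℤ) ^ 3 - k) := by ring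
  rw [h2]
  exact dvd_add (Dvd.dvd.mul_right h1 _) hw

lemma mem_R (k : ℤ) (s v : ℕ) : v ∈ R k s ↔ v < s ∧ (s : ℤ) ∣ (v : ℤ) ^ 3 - k := by
  unfold R; simp

lemma map1 (k : ℤ) (a b : ℕ) (ha : 1 ≤ a) (hb : 1 ≤ b) (v : ℕ) (hv : v ∈ R k (a * b)) :
    (v % a, v % b) ∈ R k a ×ˢ R k b := by
  rw [mem_R] at hv
  obtain ⟨_, h2⟩ := hv
  rw [Finset.mem_product]
  push_cast at h2
  refine ⟨(mem_R _ _ _).mpr ⟨Nat.mod_lt _ ha, ?_⟩, (mem_R _ _ _).mpr ⟨Nat.mod_lt _ hb, ?_⟩⟩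
  · exact dvd_cube a k _ v (Nat.mod_modEq v a) (dvd_trans (Dvd.intro _ rfl) h2)
  · exact dvd_cube b k _ v (Nat.mod_modEq v b) (dvd_trans (Dvd.intro_left _ rfl) h2)

lemma map2 (k : ℤ) (a b : ℕ) (ha : 1 ≤ a) (hb : 1 ≤ b) (co : a.Coprime b) (p : ℕ × ℕ)
    (hp : p ∈ R k a ×ˢ R k b) : (Nat.chineseRemainder co p.1 p.2 : ℕ) ∈ R k (a * b) := by
  rw [Finset.mem_product, mem_R, mem_R] at hp
  obtain ⟨⟨_, h2⟩, _, h4⟩ := hp
  have hc := (Nat.chineseRemainder co p.1 p.2).2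
  rw [mem_R]
  refine ⟨Nat.chineseRemainder_lt_mul co _ _ (by omega) (by omega), ?_⟩
  push_cast
  apply IsCoprime.mul_dvd (Nat.isCoprime_iff_coprime.mpr co)
  · exact dvd_cube a k _ _ hc.1 h2
  · exact dvd_cube b k _ _ hc.2 h4

lemma linv (k : ℤ) (a b : ℕ) (ha : 1 ≤ a) (hb : 1 ≤ b) (co : a.Coprime b) (v : ℕ)
    (hv : v ∈ R k (a * b)) : (Nat.chineseRemainder co (v % a) (v % b) : ℕ) = v := by
  rw [mem_R] at hv
  have hc := (Nat.chineseRemainder co (v % a) (v % b)).2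
  have h1 : (Nat.chineseRemainder co (v % a) (v % b) : ℕ) ≡ v [MOD a] := hc.1.trans (Nat.mod_modEq v a)
  have h2 : (Nat.chineseRemainder co (v % a) (v % b) : ℕ) ≡ v [MOD b] := hc.2.trans (Nat.mod_modEq v b)
  have h3 := (Nat.modEq_and_modEq_iff_modEq_mul co).mp ⟨h1, h2⟩
  exact Nat.ModEq.eq_of_lt_of_lt h3 (Nat.chineseRemainder_lt_mul co _ _ (by omega) (by omega)) hv.1

lemma rinv (k : ℤ) (a b : ℕ) (co : a.Coprime b) (p : ℕ × ℕ)
    (hp : p ∈ R k a ×ˢ R k b) :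
    ((Nat.chineseRemainder co p.1 p.2 : ℕ) % a, (Nat.chineseRemainder co p.1 p.2 : ℕ) % b) = p := by
  rw [Finset.mem_product, mem_R, mem_R] at hp
  obtain ⟨⟨h1, _⟩, h3, _⟩ := hp
  have hc := (Nat.chineseRemainder co p.1 p.2).2
  have e1 : (Nat.chineseRemainder co p.1 p.2 : ℕ) % a = p.1 := by
    have := hc.1
    unfold Nat.ModEq at this
    rw [this, Nat.mod_eq_of_lt h1]
  have e2 : (Nat.chineseRemainder co p.1 p.2 : ℕ) % b = p.2 := by
    have := hc.2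
    unfold Nat.ModEq at this
    rw [this, Nat.mod_eq_of_lt h3]
  rw [e1, e2]

lemma ec_add (s t : ℝ) : ec (s + t) = ec s * ec t := by
  unfold ec
  rw [← Complex.exp_add]
  congr 1
  push_cast
  ring

lemma ec_int (m : ℤ) : ec (m : ℝ) = 1 := by
  unfold ec
  have : (2 * (Real.pi : ℂ) * ((m : ℝ) : ℂ) * Complex.I) = m * (2 * Real.pi * Complex.I) := by
    push_cast; ring
  rw [this, Complex.exp_int_mul_two_pi_mul_I]

lemma term_eq (a b : ℕ) (ha : 1 ≤ a) (hb : 1 ≤ b) (co : a.Coprime b) (n a' b' : ℤ)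
    (h1 : (a : ℤ) ∣ b * b' - 1) (h2 : (b : ℤ) ∣ a * a' - 1) (v : ℕ) :
    ec ((n : ℝ) * v / ((a * b : ℕ) : ℝ)) =
      ec (((n * b' : ℤ) : ℝ) * ((v % a : ℕ) : ℝ) / a) * ec (((n * a' : ℤ) : ℝ) * ((v % b : ℕ) : ℝ) / b) := by
  have hd : ((a : ℤ) * b) ∣ b * b' + a * a' - 1 := by
    apply IsCoprime.mul_dvd (Nat.isCoprime_iff_coprime.mpr co)
    · have : (b : ℤ) * b' + a * a' - 1 = (b * b' - 1) + a * a' := by ring
      rw [this]; exact dvd_add h1 (Dvd.intro _ rfl)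
    · have : (b : ℤ) * b' + a * a' - 1 = (a * a' - 1) + b * b' := by ring
      rw [this]; exact dvd_add h2 (Dvd.intro _ rfl)
  obtain ⟨c, hc⟩ := hd
  have e1 : a * (v / a) + v % a = v := Nat.div_add_mod v a
  have e2 : b * (v / b) + v % b = v := Nat.div_add_mod v b
  generalize v / a = q1 at e1
  generalize v / b = q2 at e2
  have e1' : (a : ℝ) * q1 + ((v % a : ℕ) : ℝ) = v := by exact_mod_cast e1
  have e2' : (b : ℝ) * q2 + ((v % b : ℕ) : ℝ) = v := by exact_mod_cast e2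
  have hc' : (b : ℝ) * b' + a * a' - 1 = a * b * c := by exact_mod_cast hc
  have ha0 : (a : ℝ) ≠ 0 := by positivity
  have hb0 : (b : ℝ) ≠ 0 := by positivity
  rw [← ec_add]
  have key : ((n * b' : ℤ) : ℝ) * ((v % a : ℕ) : ℝ) / a + ((n * a' : ℤ) : ℝ) * ((v % b : ℕ) : ℝ) / b =
      (n : ℝ) * v / ((a * b : ℕ) : ℝ) +
        ((n * v * c - n * b' * q1 - n * a' * q2 : ℤ) : ℝ) := by
    have f1 : ((v % a : ℕ) : ℝ) = v - a * q1 := by linarith
    have f2 : ((v % b : ℕ) : ℝ) = v - b * q2 := by linarith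
    rw [f1, f2]
    push_cast
    field_simp
    linear_combination (n : ℝ) * v * hc'
  rw [key, ec_add, ec_int, mul_one]

theorem hCRT : StCRT := by
  intro k a b ha hb co
  refine ⟨?_, ?_⟩
  · rw [← Finset.card_product]
    exact Finset.card_nbij' (fun v => (v % a, v % b)) (fun p => (Nat.chineseRemainder co p.1 p.2 : ℕ))
      (fun v hv => map1 k a b ha hb v hv) (fun p hp => map2 k a b ha hb co p hp)
      (fun v hv => linv k a b ha hb co v hv) (fun p hp => rinv k a b co p hp)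
  · intro n a' b' h1 h2
    unfold W
    rw [Finset.sum_mul_sum, ← Finset.sum_product']
    exact Finset.sum_nbij' (fun v => (v % a, v % b)) (fun p => (Nat.chineseRemainder co p.1 p.2 : ℕ))
      (fun v hv => map1 k a b ha hb v hv) (fun p hp => map2 k a b ha hb co p hp)
      (fun v hv => linv k a b ha hb co v hv) (fun p hp => rinv k a b co p hp)
      (fun v hv => term_eq a b ha hb co n a' b' h1 h2 v)

end Pool.Agent.Helper79.CU
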