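import Pool.Agent.Helper21.CU.St2
import Pool.Agent.Helper2.BI.St

/-!
# Project CU, second theorem, module ONE: one progression
-/

set_option autoImplicit false
set_option linter.unusedVariables false

open Finset

namespace Pool.Agent.Helper79.CU

open Pool.Agent.Helper21.CU

lemma aux_primes (S : Finset ℕ) (s : ℕ) (y : ℝ) (hs : 0 < s) (hy : 1 < y)
    (hS : ∀ p ∈ S, p.Prime ∧ y ≤ p ∧ p ∣ s) : (S.card : ℝ) * Real.log y ≤ Real.log s := by
  have h1 : ∏ p ∈ S, p ∣ s :=
    Finset.prod_primes_dvd s (fun p hp => (hS p hp).1.prime) (fun p hp => (hS p hp).2.2)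
  have h2 : ∏ p ∈ S, p ≤ s := Nat.le_of_dvd hs h1
  have h3 : y ^ S.card ≤ ∏ p ∈ S, (p : ℝ) := by
    rw [← Finset.prod_const]
    exact Finset.prod_le_prod (fun _ _ => by linarith) (fun p hp => (hS p hp).2.1)
  have h4 : y ^ S.card ≤ (s : ℝ) := by
    refine h3.trans ?_
    have := (Nat.cast_le (α := ℝ)).2 h2
    rwa [Nat.cast_prod] at this
  rw [← Real.log_pow]
  exact Real.log_le_log (by positivity) h4

open scoped Classical in
lemma aux_count (k : ℤ) (Z s v : ℕ) (hs : 1 ≤ s) (hv : v < s) :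
    ∃ (B : Finset ℕ) (w : ℤ), B ⊆ Ioc 0 (0 + (2 * (Z / s) + 2)) ∧
      B.card = ((Icc (-(Z : ℤ)) Z).filter
        (fun z : ℤ => z % (s : ℤ) = v ∧ IsSquare (D k s z))).card ∧
      ∀ j ∈ B, IsSquare (D k s (w + s * j)) := by
  set q : ℕ := Z / s with hq
  set T := (Icc (-(Z : ℤ)) Z).filter
        (fun z : ℤ => z % (s : ℤ) = v ∧ IsSquare (D k s z)) with hT
  have hs0 : (0 : ℤ) < s := by exact_mod_cast hs
  have hZ : (Z : ℤ) < s * (q + 1) := by
    have := Nat.lt_mul_div_succ Z (show 0 < s by omega)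
    rw [← hq] at this
    exact_mod_cast this
  have hvs : (v : ℤ) < s := by exact_mod_cast hv
  have hv0 : (0 : ℤ) ≤ v := by positivity
  have key : ∀ z ∈ T, z = s * (z / s) + v ∧ -((q : ℤ) + 2) < z / s ∧ z / s < q + 1 ∧
      IsSquare (D k s z) := by
    intro z hz
    rw [hT, mem_filter, mem_Icc] at hz
    obtain ⟨⟨h1, h2⟩, h3, h4⟩ := hz
    have h5 : z = s * (z / s) + v := by
      have := Int.mul_ediv_add_emod z s
      rw [h3] at this
      exact this.symm
    refine ⟨h5, ?_, ?_, h4⟩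
    · have h6 : (s : ℤ) * (-((q : ℤ) + 2)) < s * (z / s) := by
        have : (s : ℤ) * (z / s) = z - v := by linarith
        rw [this]
        nlinarith
      exact lt_of_mul_lt_mul_left h6 hs0.le
    · have h6 : (s : ℤ) * (z / s) < s * (q + 1) := by
        have : (s : ℤ) * (z / s) = z - v := by linarith
        rw [this]
        linarith
      exact lt_of_mul_lt_mul_left h6 hs0.le
  refine ⟨T.image (fun z : ℤ => (z / s + (q + 2)).toNat), v - s * (q + 2), ?_, ?_, ?_⟩
  · intro j hj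
    rw [mem_image] at hj
    obtain ⟨z, hz, rfl⟩ := hj
    obtain ⟨-, h1, h2, -⟩ := key z hz
    rw [mem_Ioc]
    omega
  · refine card_image_of_injOn ?_
    intro z hz z' hz' h
    obtain ⟨h0, h1, h2, -⟩ := key z hz
    obtain ⟨h0', h1', h2', -⟩ := key z' hz'
    have h3 : z / s = z' / s := by
      have h4 : (z / (s : ℤ) + (q + 2)).toNat = (z' / (s : ℤ) + (q + 2)).toNat := h
      omega
    rw [h0, h0', h3]
  · intro j hj
    rw [mem_image] at hj
    obtain ⟨z, hz, rfl⟩ := hj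
    obtain ⟨h0, h1, h2, h3⟩ := key z hz
    have h4 : (((z / (s : ℤ) + (q + 2)).toNat : ℕ) : ℤ) = z / s + (q + 2) :=
      Int.toNat_of_nonneg (by omega)
    rw [h4]
    have h5 : (v : ℤ) - s * (q + 2) + s * (z / s + (q + 2)) = z := by
      have : (v : ℤ) - s * (q + 2) + s * (z / s + (q + 2)) = s * (z / s) + v := by ring
      rw [this]
      exact h0.symm
    rw [h5]
    exact h3

/-- the sieve step -/
lemma aux_sieve (k : ℤ) (C : ℝ) (hC : 0 < C) (h2 : StNSQ)
    (hls : ∀ (N M k H Q : ℕ) (B S : Finset ℕ), B ⊆ Ioc M (M + N) →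
      1 ≤ Q → (∀ q ∈ S, q.Prime ∧ q ≤ Q ∧ H < q) →
      (∀ q ∈ S, ∃ Om ⊆ range q, Om.card = H ∧ ∀ n ∈ B, n % q ∉ Om) →
      (S.card.choose k : ℝ) * ((H : ℝ) / Q) ^ k * B.card ≤ C * (N + ((Q : ℝ) ^ k) ^ 2))
    (s N Q : ℕ) (w : ℤ) (B : Finset ℕ) (hB : B ⊆ Ioc 0 (0 + N))
    (hsq : ∀ j ∈ B, IsSquare (D k s (w + s * j))) (hs : 1 ≤ s) (hQ : 12 ≤ Q) (hQN : Q * Q ≤ N)
    (hN : N < (Q + 1) * (Q + 1))
    (hlog : 40 * Real.log (s + 1) ≤ Q)
    (hq : (Q : ℝ) / (10 * Real.log Q) ≤
      (((Ioc (Q / 2) Q).filter (fun p : ℕ => p.Prime ∧ p % 3 = 2 ∧ ¬ (p : ℤ) ∣ 3 * k)).card : ℝ)) :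
    (B.card : ℝ) ≤ 960 * C * √(N : ℝ) * Real.log Q := by
  classical
  have hQr : (12 : ℝ) ≤ Q := by exact_mod_cast hQ
  have hLQ : 0 < Real.log Q := Real.log_pos (by linarith)
  set S0 := (Ioc (Q / 2) Q).filter (fun p : ℕ => p.Prime ∧ p % 3 = 2 ∧ ¬ (p : ℤ) ∣ 3 * k) with hS0
  set S := S0.filter (fun p => ¬ p ∣ s) with hS
  set S1 := S0.filter (fun p => p ∣ s) with hS1
  have hcard : S1.card + S.card = S0.card := by
    rw [hS, hS1]
    exact card_filter_add_card_filter_not _
  -- primes dividing s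
  have h3 : (S1.card : ℝ) * Real.log ((Q : ℝ) / 2) ≤ Real.log s := by
    refine aux_primes S1 s ((Q : ℝ) / 2) (by omega) (by linarith) ?_
    intro p hp
    rw [hS1, mem_filter, hS0, mem_filter, mem_Ioc] at hp
    obtain ⟨⟨⟨h4, h5⟩, h6, -⟩, h7⟩ := hp
    refine ⟨h6, ?_, h7⟩
    have : Q ≤ 2 * p := by omega
    have : (Q : ℝ) ≤ 2 * p := by exact_mod_cast this
    linarith
  have h4 : Real.log Q / 2 ≤ Real.log ((Q : ℝ) / 2) := by
    have h5 : Real.log ((Q : ℝ) / 2) = Real.log Q - Real.log 2 :=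
      Real.log_div (by positivity) (by norm_num)
    have h6 : Real.log 4 ≤ Real.log Q := Real.log_le_log (by norm_num) (by linarith)
    have h7 : Real.log 4 = 2 * Real.log 2 := by
      rw [show (4 : ℝ) = 2 ^ 2 by norm_num, Real.log_pow]; norm_num
    linarith
  have h5 : (S1.card : ℝ) ≤ Q / (20 * Real.log Q) := by
    rw [le_div_iff₀ (by positivity)]
    have h6 : Real.log s ≤ Real.log (s + 1) :=
      Real.log_le_log (by exact_mod_cast hs) (by linarith)
    have h7 : (S1.card : ℝ) * (Real.log Q / 2) ≤ Real.log s :=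
      (mul_le_mul_of_nonneg_left h4 (by positivity)).trans h3
    nlinarith
  have h6 : (Q : ℝ) / (20 * Real.log Q) ≤ S.card := by
    have h7 : (S0.card : ℝ) = S1.card + S.card := by exact_mod_cast hcard.symm
    have h8 : (Q : ℝ) / (10 * Real.log Q) = Q / (20 * Real.log Q) + Q / (20 * Real.log Q) := by
      rw [← add_div, div_eq_div_iff (by positivity) (by positivity)]
      ring
    linarith
  have h7 := hls N 0 1 (Q / 6) Q B S hB (by omega) ?_ ?_
  · rw [Nat.choose_one_right, pow_one, pow_one] at h7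
    have h8 : (1 : ℝ) / 12 ≤ ((Q / 6 : ℕ) : ℝ) / Q := by
      rw [le_div_iff₀ (by linarith)]
      have : Q ≤ 12 * (Q / 6) := by omega
      have : (Q : ℝ) ≤ 12 * ((Q / 6 : ℕ) : ℝ) := by exact_mod_cast this
      linarith
    have h9 : (Q : ℝ) / (20 * Real.log Q) * (1 / 12) * B.card ≤ C * (N + (Q : ℝ) ^ 2) := by
      refine le_trans ?_ h7
      gcongr
    have h10 : (Q : ℝ) ^ 2 ≤ N := by
      have : ((Q * Q : ℕ) : ℝ) ≤ N := by exact_mod_cast hQN
      push_cast at this
      nlinarith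
    have h11 : √(N : ℝ) ≤ 2 * Q := by
      rw [Real.sqrt_le_left (by linarith)]
      have : (N : ℝ) < (Q + 1) * (Q + 1) := by exact_mod_cast hN
      nlinarith
    have h12 : (N : ℝ) = √(N : ℝ) * √(N : ℝ) := (Real.mul_self_sqrt (by positivity)).symm
    have h13 : (Q : ℝ) * B.card ≤ 480 * C * N * Real.log Q := by
      have h14 : (Q : ℝ) / (20 * Real.log Q) * (1 / 12) * B.card = Q * B.card / (240 * Real.log Q) := by
        rw [div_mul_div_comm, div_mul_eq_mul_div]
        congr 1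
        · ring
        · ring
      rw [h14, div_le_iff₀ (by positivity)] at h9
      have : C * (N + (Q : ℝ) ^ 2) * (240 * Real.log Q) ≤ C * (N + N) * (240 * Real.log Q) := by
        gcongr
      linarith
    have h15 : (Q : ℝ) * B.card ≤ Q * (960 * C * √(N : ℝ) * Real.log Q) := by
      refine h13.trans ?_
      have h16 : 480 * C * (N : ℝ) * Real.log Q = 480 * C * √(N : ℝ) * Real.log Q * √(N : ℝ) := by
        nth_rewrite 1 [h12]
        ring
      rw [h16]
      have : 480 * C * √(N : ℝ) * Real.log Q * √(N : ℝ) ≤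
          480 * C * √(N : ℝ) * Real.log Q * (2 * Q) := by gcongr
      linarith
    exact le_of_mul_le_mul_left h15 (by linarith)
  · intro p hp
    rw [hS, mem_filter, hS0, mem_filter, mem_Ioc] at hp
    obtain ⟨⟨⟨h4, h5⟩, h6, -⟩, h7⟩ := hp
    exact ⟨h6, h5, by omega⟩
  · intro p hp
    rw [hS, mem_filter, hS0, mem_filter, mem_Ioc] at hp
    obtain ⟨⟨⟨h4, h5⟩, h6, h7, -⟩, h8⟩ := hp
    obtain ⟨Om, hOm, hc, hn⟩ := h2 k s w p h6 h7 (by omega) (by exact_mod_cast h8)
    obtain ⟨Om', hOm', hc'⟩ := Finset.exists_subset_card_eq (s := Om) (n := Q / 6) (by omega)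
    refine ⟨Om', hOm'.trans hOm, hc', fun n hnB h => ?_⟩
    exact hn n (hsq n hnB) (hOm' h)

theorem hONE (h1 : StQPR) (h2 : StNSQ) (h3 : Pool.Agent.Helper2.BI.LSc) : StONE := by
  classical
  intro k A hk
  obtain ⟨Q₀, hQ₀, hqpr⟩ := h1 k hk
  obtain ⟨C, hC, hls⟩ := h3
  have hlog2 : 0 < Real.log 2 := Real.log_pos (by norm_num)
  set cA : ℝ := Real.log (A + 1) / Real.log 2 + 1 with hcA
  have hlogA : 0 ≤ Real.log ((A : ℝ) + 1) := Real.log_nonneg (by
    have : (0 : ℝ) ≤ A := by positivity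
    linarith)
  have hcA1 : 1 ≤ cA := by
    rw [hcA]
    have : 0 ≤ Real.log ((A : ℝ) + 1) / Real.log 2 := by positivity
    linarith
  set Q₁ : ℕ := max Q₀ 12 with hQ₁
  refine ⟨√(2 + 2 * (A : ℝ)) * (40 * cA + (Q₁ + 1) / Real.log 2 + 1920 * C), by positivity, ?_⟩
  intro Z s v hZ hs hsA hv
  obtain ⟨B, w, hB, hBc, hBs⟩ := aux_count k Z s v hs hv
  set T := (Icc (-(Z : ℤ)) Z).filter
        (fun z : ℤ => z % (s : ℤ) = v ∧ IsSquare (D k s z)) with hT
  have hgoal : (T.card : ℝ) ≤ √(2 + 2 * (A : ℝ)) * (40 * cA + (Q₁ + 1) / Real.log 2 + 1920 * C) *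
      √((Z : ℝ) / s) * Real.log Z := by
    rw [← hBc]
    set N : ℕ := 2 * (Z / s) + 2 with hN
    have hBN : (B.card : ℝ) ≤ N := by
      have := card_le_card hB
      rw [Nat.card_Ioc] at this
      have h : B.card ≤ N := by omega
      exact_mod_cast h
    set Q : ℕ := Nat.sqrt N with hQ
    have hsr : (1 : ℝ) ≤ s := by exact_mod_cast hs
    have hZr : (2 : ℝ) ≤ Z := by exact_mod_cast hZ
    have hLZ : Real.log 2 ≤ Real.log Z := Real.log_le_log (by norm_num) hZr
    have hLZ0 : 0 < Real.log Z := by linarith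
    have hx : (1 : ℝ) ≤ A * ((Z : ℝ) / s) := by
      rw [mul_div_assoc', le_div_iff₀ (by linarith)]
      have : (s : ℝ) ≤ A * Z := by exact_mod_cast hsA
      linarith
    have hNx : (N : ℝ) ≤ (2 + 2 * A) * ((Z : ℝ) / s) := by
      have h4 : ((Z / s : ℕ) : ℝ) ≤ (Z : ℝ) / s := Nat.cast_div_le
      rw [hN]
      push_cast
      nlinarith
    have hsN : √(N : ℝ) ≤ √(2 + 2 * (A : ℝ)) * √((Z : ℝ) / s) := by
      rw [← Real.sqrt_mul (by positivity)]
      exact Real.sqrt_le_sqrt hNx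
    have hQN : Q * Q ≤ N := Nat.sqrt_le N
    have hQN' : N < (Q + 1) * (Q + 1) := Nat.lt_succ_sqrt N
    have hsQ : √(N : ℝ) ≤ Q + 1 := by
      rw [Real.sqrt_le_left (by positivity)]
      have : (N : ℝ) < (Q + 1) * (Q + 1) := by exact_mod_cast hQN'
      nlinarith
    have hNs : (N : ℝ) = √(N : ℝ) * √(N : ℝ) := (Real.mul_self_sqrt (by positivity)).symm
    -- it is enough to bound by √N * (...) * log Z
    suffices h : (B.card : ℝ) ≤ √(N : ℝ) * ((40 * cA + (Q₁ + 1) / Real.log 2 + 1920 * C) *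
        Real.log Z) by
      refine h.trans ?_
      have h5 : √(N : ℝ) * ((40 * cA + (Q₁ + 1) / Real.log 2 + 1920 * C) * Real.log Z) ≤
          (√(2 + 2 * (A : ℝ)) * √((Z : ℝ) / s)) *
          ((40 * cA + (Q₁ + 1) / Real.log 2 + 1920 * C) * Real.log Z) := by
        gcongr
      linarith
    have hAZ : Real.log (A * Z + 2) ≤ cA * Real.log Z := by
      have h4 : (A : ℝ) * Z + 2 ≤ (A + 1) * Z := by nlinarith
      have h5 : Real.log (A * Z + 2) ≤ Real.log ((A + 1) * Z) :=
        Real.log_le_log (by positivity) h4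
      rw [Real.log_mul (by positivity) (by positivity)] at h5
      refine h5.trans ?_
      rw [hcA, add_mul, one_mul]
      have h6 : Real.log ((A : ℝ) + 1) ≤ Real.log (A + 1) / Real.log 2 * Real.log Z := by
        rw [div_mul_eq_mul_div, le_div_iff₀ hlog2]
        exact mul_le_mul_of_nonneg_left hLZ hlogA
      linarith
    by_cases hcase : (Q : ℝ) < 40 * Real.log (A * Z + 2) ∨ Q < Q₁
    · have h4 : (Q : ℝ) + 1 ≤ (40 * cA + (Q₁ + 1) / Real.log 2) * Real.log Z := by
        have h5 : 1 ≤ Real.log Z / Real.log 2 := by rwa [le_div_iff₀ hlog2, one_mul]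
        have h6 : ((Q₁ : ℝ) + 1) / Real.log 2 * Real.log Z = (Q₁ + 1) * (Real.log Z / Real.log 2) := by
          ring
        have h7 : (Q₁ : ℝ) + 1 ≤ (Q₁ + 1) * (Real.log Z / Real.log 2) := by
          have : (0 : ℝ) ≤ Q₁ + 1 := by positivity
          nlinarith
        have h8 : 0 ≤ 40 * cA * Real.log Z := by positivity
        rw [add_mul, h6]
        rcases hcase with h | h
        · have : (0 : ℝ) ≤ Q₁ := by positivity
          nlinarith
        · have : (Q : ℝ) < Q₁ := by exact_mod_cast h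
          linarith
      calc (B.card : ℝ) ≤ N := hBN
        _ = √(N : ℝ) * √(N : ℝ) := hNs
        _ ≤ √(N : ℝ) * (Q + 1) := by gcongr
        _ ≤ √(N : ℝ) * ((40 * cA + (Q₁ + 1) / Real.log 2) * Real.log Z) := by gcongr
        _ ≤ √(N : ℝ) * ((40 * cA + (Q₁ + 1) / Real.log 2 + 1920 * C) * Real.log Z) := by
          have h5 : 0 ≤ 1920 * C * Real.log Z := by positivity
          refine mul_le_mul_of_nonneg_left ?_ (Real.sqrt_nonneg _)
          rw [add_mul (40 * cA + (Q₁ + 1) / Real.log 2)]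
          linarith
    · push Not at hcase
      obtain ⟨hc1, hc2⟩ := hcase
      have hQ12 : 12 ≤ Q := le_trans (le_max_right _ _) hc2
      have hQ0 : Q₀ ≤ Q := le_trans (le_max_left _ _) hc2
      have hlogs : 40 * Real.log (s + 1) ≤ Q := by
        refine le_trans ?_ hc1
        have h4 : (s : ℝ) ≤ A * Z := by exact_mod_cast hsA
        have h5 : Real.log (s + 1) ≤ Real.log (A * Z + 2) :=
          Real.log_le_log (by positivity) (by linarith)
        linarith
      have h4 := aux_sieve k C hC h2 hls s N Q w B hB hBs hs hQ12 hQN hQN' hlogs (hqpr Q hQ0)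
      have h5 : Real.log Q ≤ 2 * Real.log Z := by
        have h6 : Q ≤ Z ^ 2 := by
          have h7 : N ≤ Z ^ 4 := by
            have h8 : Z / s ≤ Z := Nat.div_le_self _ _
            have h9 : 2 * Z + 2 ≤ Z ^ 4 := by
              have : Z ^ 4 = Z * Z * (Z * Z) := by ring
              rw [this]
              have h10 : 4 ≤ Z * Z := by nlinarith
              nlinarith
            omega
          have : Q * Q ≤ Z ^ 2 * Z ^ 2 := by
            have : Z ^ 2 * Z ^ 2 = Z ^ 4 := by ring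
            rw [this]
            exact hQN.trans h7
          nlinarith
        have h7 : (Q : ℝ) ≤ (Z : ℝ) ^ 2 := by exact_mod_cast h6
        have h8 : Real.log Q ≤ Real.log ((Z : ℝ) ^ 2) := by
          have : (12 : ℝ) ≤ Q := by exact_mod_cast hQ12
          exact Real.log_le_log (by linarith) h7
        rw [Real.log_pow] at h8
        exact_mod_cast h8
      refine h4.trans ?_
      have h6 : 960 * C * √(N : ℝ) * Real.log Q ≤ 960 * C * √(N : ℝ) * (2 * Real.log Z) := by
        gcongr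
      refine h6.trans ?_
      have h7 : 960 * C * √(N : ℝ) * (2 * Real.log Z) = √(N : ℝ) * (1920 * C * Real.log Z) := by ring
      rw [h7]
      have h8 : 0 ≤ (40 * cA + (Q₁ + 1) / Real.log 2) * Real.log Z := by positivity
      refine mul_le_mul_of_nonneg_left ?_ (Real.sqrt_nonneg _)
      rw [add_mul (40 * cA + (Q₁ + 1) / Real.log 2)]
      linarith
  convert hgoal using 3
end Pool.Agent.Helper79.CU
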